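import Pool.Agent.KDT.StmtsM

/-! Squad KDT, row CMA: composition of Mumford vectors. -/

set_option autoImplicit false

namespace Pool.Agent.KDT.H10

open Polynomial Pool.Agent.KDT.Z

theorem cma_tail {F : Type} [Field F] (f : F[X]) (hf : f.Monic) (h5 : f.natDegree = 5) :
    ∃ R : F[X], f = X ^ 5 + C (f.coeff 4) * X ^ 4 + R ∧ R.degree < 4 := by
  refine ⟨f - X ^ 5 - C (f.coeff 4) * X ^ 4, by ring, ?_⟩
  have h : (f - X ^ 5 - C (f.coeff 4) * X ^ 4).degree < ((4 : ℕ) : WithBot ℕ) := by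
    rw [Polynomial.degree_lt_iff_coeff_zero]
    intro m hm
    rw [coeff_sub, coeff_sub, coeff_X_pow, coeff_C_mul, coeff_X_pow]
    rcases Nat.lt_or_ge 5 m with h6 | h6
    · rw [Polynomial.coeff_eq_zero_of_natDegree_lt (h5.trans_lt h6), if_neg (by omega),
        if_neg (by omega)]
      ring
    · rcases Nat.lt_or_ge 4 m with h7 | h7
      · have e : m = 5 := by omega
        have h8 : f.coeff 5 = 1 := by
          have := hf.coeff_natDegree
          rwa [h5] at this
        rw [e, h8, if_pos rfl, if_neg (by omega)]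
        ring
      · have e : m = 4 := by omega
        rw [e, if_neg (by omega), if_pos rfl]
        ring
  exact_mod_cast h

theorem cma_zero {F : Type} [Field F] {G D R : F[X]} (hG : G.Monic) (h4 : G.natDegree = 4)
    (d3 d2 d1 d0 : F) (hR : R.degree < 4)
    (hD : D = C d3 * X ^ 3 + C d2 * X ^ 2 + C d1 * X + C d0 + R) (h : G ∣ D) : D = 0 := by
  apply Polynomial.eq_zero_of_dvd_of_degree_lt h
  have hG4 : G.degree = 4 := by
    rw [Polynomial.degree_eq_natDegree hG.ne_zero, h4]
    rfl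
  rw [hG4, hD]
  refine (Polynomial.degree_add_le _ _).trans_lt (max_lt ?_ hR)
  exact Polynomial.degree_cubic_le.trans_lt (by decide)

theorem cma_monic {F : Type} [Field F] (q : Fin 4 → F) : (pA q).Monic ∧ (pA q).natDegree = 2 := by
  unfold pA
  constructor
  · monicity!
  · compute_degree!

theorem cma_id {F : Type} [Field F] (a3 a2 a1 a0 s p S P c d f4 : F) (R : F[X])
    (h5 : 2 * a3 * a2 - 1 + a3 ^ 2 * (s + S + c) = 0)
    (h4 : a2 ^ 2 + 2 * a3 * a1 - f4 - a3 ^ 2 * (d + c * (s + S) + (p + P + s * S)) = 0) :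
    (C a3 * X ^ 3 + C a2 * X ^ 2 + C a1 * X + C a0) ^ 2 - (X ^ 5 + C f4 * X ^ 4 + R) -
      C (a3 ^ 2) * ((X ^ 2 - C s * X + C p) * (X ^ 2 - C S * X + C P) *
        (X ^ 2 - C c * X + C d)) =
      C (2 * a3 * a0 + 2 * a2 * a1 + a3 ^ 2 * (d * (s + S) + c * (p + P + s * S) +
        (s * P + S * p))) * X ^ 3 +
      C (2 * a2 * a0 + a1 ^ 2 - a3 ^ 2 * (d * (p + P + s * S) + c * (s * P + S * p) + p * P)) *
        X ^ 2 +
      C (2 * a1 * a0 + a3 ^ 2 * (d * (s * P + S * p) + c * (p * P))) * X +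
      C (a0 ^ 2 - a3 ^ 2 * (d * (p * P))) + -R := by
  have h5' : 2 * C a3 * C a2 - 1 + C a3 ^ 2 * (C s + C S + C c) = (0 : F[X]) := by
    have h := congrArg (C : F → F[X]) h5
    simpa only [map_add, map_sub, map_mul, map_pow, map_one, map_ofNat, map_zero] using h
  have h4' : C a2 ^ 2 + 2 * C a3 * C a1 - C f4 - C a3 ^ 2 * (C d + C c * (C s + C S) +
      (C p + C P + C s * C S)) = (0 : F[X]) := by
    have h := congrArg (C : F → F[X]) h4
    simpa only [map_add, map_sub, map_mul, map_pow, map_one, map_ofNat, map_zero] using h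
  simp only [map_add, map_sub, map_mul, map_pow, map_one, map_ofNat]
  linear_combination X ^ 5 * h5' + X ^ 4 * h4'

theorem cma_id0 {F : Type} [Field F] (a2 a1 a0 s p S P f4 : F) (R : F[X]) :
    (X ^ 5 + C f4 * X ^ 4 + R) - (C a2 * X ^ 2 + C a1 * X + C a0) ^ 2 -
      (X ^ 2 - C s * X + C p) * (X ^ 2 - C S * X + C P) * (X - C (a2 ^ 2 - f4 - s - S)) =
      C (-(2 * a2 * a1) - (a2 ^ 2 - f4 - s - S) * (s + S) - (p + P + s * S)) * X ^ 3 +
      C (-(2 * a2 * a0 + a1 ^ 2) + (a2 ^ 2 - f4 - s - S) * (p + P + s * S) +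
        (s * P + S * p)) * X ^ 2 +
      C (-(2 * a1 * a0) - (a2 ^ 2 - f4 - s - S) * (s * P + S * p) - p * P) * X +
      C (-a0 ^ 2 + (a2 ^ 2 - f4 - s - S) * (p * P)) + R := by
  simp only [map_add, map_sub, map_mul, map_pow, map_ofNat, map_neg]
  ring

theorem cma : CmaStatement := by
  constructor
  · intro F _ q t
    unfold rr ro
    constructor <;> ring
  intro F _ f q t hf h5 hq ht hr
  have eq1 : lin q t - pB q = pA q * (C (ro q t / rr q t) * X + C (mu q t / rr q t)) := by
    have e2 : l2 q t = mu q t / rr q t - q 0 * (ro q t / rr q t) := by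
      unfold l2
      ring
    have e1 : l1 q t = q 3 + (q 1 * (ro q t / rr q t) - q 0 * (mu q t / rr q t)) := by
      unfold l1
      ring
    have e0 : l0 q t = q 2 + q 1 * (mu q t / rr q t) := by
      unfold l0
      ring
    have e3 : l3 q t = ro q t / rr q t := rfl
    unfold lin pB pA
    rw [e3, e2, e1, e0]
    simp only [map_add, map_sub, map_mul]
    ring
  have k1 : ((t 0 - q 0) * t 0 + (q 1 - t 1)) * (ro q t / rr q t) +
      (t 0 - q 0) * (mu q t / rr q t) = t 3 - q 3 := by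
    field_simp
    unfold ro mu rr
    ring
  have k0 : (q 1 - t 1) * (mu q t / rr q t) - (t 0 - q 0) * t 1 * (ro q t / rr q t) =
      t 2 - q 2 := by
    field_simp
    unfold ro mu rr
    ring
  have k1' : ((C (t 0) - C (q 0)) * C (t 0) + (C (q 1) - C (t 1))) * C (ro q t / rr q t) +
      (C (t 0) - C (q 0)) * C (mu q t / rr q t) = (C (t 3) - C (q 3) : F[X]) := by
    have h := congrArg (C : F → F[X]) k1
    simpa only [map_add, map_sub, map_mul] using h
  have k0' : (C (q 1) - C (t 1)) * C (mu q t / rr q t) - (C (t 0) - C (q 0)) * C (t 1) *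
      C (ro q t / rr q t) = (C (t 2) - C (q 2) : F[X]) := by
    have h := congrArg (C : F → F[X]) k0
    simpa only [map_add, map_sub, map_mul] using h
  have eq2 : lin q t - pB t = pA t * (C (ro q t / rr q t) * X + C (mu q t / rr q t) +
      (C (t 0) - C (q 0)) * C (ro q t / rr q t)) := by
    have h : lin q t - pB t = (lin q t - pB q) + (pB q - pB t) := by ring
    rw [h, eq1]
    unfold pA pB
    linear_combination X * k1' + k0'
  have d1 : pA q ∣ lin q t - pB q := ⟨_, eq1⟩
  have d2 : pA t ∣ lin q t - pB t := ⟨_, eq2⟩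
  have cop : IsCoprime (pA q) (pA t) := by
    refine ⟨C ((rr q t)⁻¹) * (C (t 0 - q 0) * (C (t 0) - X) + C (q 1 - t 1)),
      -(C ((rr q t)⁻¹) * (C (t 0 - q 0) * (C (t 0) - X) + C (q 1 - t 1) -
        C ((t 0 - q 0) ^ 2))), ?_⟩
    have h : C ((rr q t)⁻¹) * C (rr q t) = (1 : F[X]) := by
      rw [← C_mul, inv_mul_cancel₀ hr, C_1]
    have h2 : (C (rr q t) : F[X]) = (C (q 1) - C (t 1)) ^ 2 + (C (t 0) - C (q 0)) *
        (C (q 1) - C (t 1)) * C (t 0) + (C (t 0) - C (q 0)) ^ 2 * C (t 1) := by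
      unfold rr
      simp only [map_add, map_sub, map_mul, map_pow]
    rw [h2] at h
    unfold pA
    simp only [map_sub, map_pow]
    linear_combination h
  have hqd : pA q ∣ lin q t ^ 2 - f := by
    have h : lin q t ^ 2 - f = (lin q t - pB q) * (lin q t + pB q) + (pB q ^ 2 - f) := by ring
    rw [h]
    exact dvd_add (d1.mul_right _) hq
  have htd : pA t ∣ lin q t ^ 2 - f := by
    have h : lin q t ^ 2 - f = (lin q t - pB t) * (lin q t + pB t) + (pB t ^ 2 - f) := by ring
    rw [h]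
    exact dvd_add (d2.mul_right _) ht
  have hG : pA q * pA t ∣ lin q t ^ 2 - f := cop.mul_dvd hqd htd
  have mG : (pA q * pA t).Monic := (cma_monic q).1.mul (cma_monic t).1
  have nG : (pA q * pA t).natDegree = 4 := by
    rw [(cma_monic q).1.natDegree_mul (cma_monic t).1, (cma_monic q).2, (cma_monic t).2]
  obtain ⟨R, hfR, hR⟩ := cma_tail f hf h5
  refine ⟨d1, d2, cop, ?_, ?_⟩
  · intro hro
    have h3 : l3 q t ≠ 0 := div_ne_zero hro hr
    have main : lin q t ^ 2 - f -
        C (l3 q t ^ 2) * (pA q * pA t * pA (cmp (f.coeff 4) q t)) = 0 := by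
      have hid := cma_id (l3 q t) (l2 q t) (l1 q t) (l0 q t) (q 0) (q 1) (t 0) (t 1) (cs q t)
        (cp (f.coeff 4) q t) (f.coeff 4) R ?_ ?_
      · rw [← hfR] at hid
        refine cma_zero mG nG _ _ _ _ (R := -R) (by rwa [degree_neg]) hid ?_
        refine dvd_sub hG ?_
        exact (Dvd.intro _ rfl).mul_left _
      · unfold cs
        field_simp
        ring
      · unfold cp
        field_simp
        ring
    have main' : lin q t ^ 2 - f = C (l3 q t ^ 2) * (pA q * pA t * pA (cmp (f.coeff 4) q t)) :=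
      sub_eq_zero.mp main
    have hb : pA (cmp (f.coeff 4) q t) ∣ pB (cmp (f.coeff 4) q t) + lin q t := by
      refine ⟨C (l3 q t) * X + C (l2 q t + cs q t * l3 q t), ?_⟩
      have e0 : cmp (f.coeff 4) q t 0 = cs q t := rfl
      have e1 : cmp (f.coeff 4) q t 1 = cp (f.coeff 4) q t := rfl
      have e2 : cmp (f.coeff 4) q t 2 = l3 q t * cs q t * cp (f.coeff 4) q t +
        l2 q t * cp (f.coeff 4) q t - l0 q t := rfl
      have e3 : cmp (f.coeff 4) q t 3 = -(l3 q t * (cs q t ^ 2 - cp (f.coeff 4) q t) +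
        l2 q t * cs q t + l1 q t) := rfl
      unfold pA pB lin
      rw [e0, e1, e2, e3]
      simp only [map_add, map_sub, map_mul, map_pow, map_neg]
      ring
    refine ⟨main', hb, ?_⟩
    have h : pB (cmp (f.coeff 4) q t) ^ 2 - f =
        (pB (cmp (f.coeff 4) q t) + lin q t) * (pB (cmp (f.coeff 4) q t) - lin q t) +
          (lin q t ^ 2 - f) := by ring
    unfold On
    rw [h]
    refine dvd_add (hb.mul_right _) ?_
    rw [main']
    exact (Dvd.intro_left _ rfl).mul_left _
  · intro hro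
    refine ⟨l2 q t ^ 2 - f.coeff 4 - q 0 - t 0, ?_⟩
    have hl : lin q t = C (l2 q t) * X ^ 2 + C (l1 q t) * X + C (l0 q t) := by
      have h3 : l3 q t = 0 := by
        unfold l3
        rw [hro, zero_div]
      unfold lin
      rw [h3, C_0, zero_mul, zero_add]
    have hid := cma_id0 (l2 q t) (l1 q t) (l0 q t) (q 0) (q 1) (t 0) (t 1) (f.coeff 4) R
    rw [← hfR, ← hl] at hid
    have main : f - lin q t ^ 2 - pA q * pA t *
        (X - C (l2 q t ^ 2 - f.coeff 4 - q 0 - t 0)) = 0 := by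
      refine cma_zero mG nG _ _ _ _ hR hid ?_
      refine dvd_sub ?_ (Dvd.intro _ rfl)
      have h : f - lin q t ^ 2 = -(lin q t ^ 2 - f) := by ring
      rw [h]
      exact hG.neg_right
    exact sub_eq_zero.mp main

end Pool.Agent.KDT.H10
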