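import Pool.Agent.KDT.StmtsK

/-! Squad KDT, row TRO: the trope of two roots. -/

set_option autoImplicit false

namespace Pool.Agent.KDT.H10

open Polynomial Pool.Agent.SZT Pool.Agent.KDT

theorem quad_eq {K : Type} [Field K] {A : K[X]} (hA : A.Monic) (h2 : A.natDegree = 2) :
    A = X ^ 2 + C (A.coeff 1) * X + C (A.coeff 0) := by
  have h := A.as_sum_range_C_mul_X_pow
  have h3 : A.coeff 2 = 1 := by
    rw [← h2]
    exact hA.coeff_natDegree
  rw [h2, Finset.sum_range_succ, Finset.sum_range_succ, Finset.sum_range_one, h3] at h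
  calc A = C (A.coeff 0) * X ^ 0 + C (A.coeff 1) * X ^ 1 + C 1 * X ^ 2 := h
    _ = _ := by
      rw [C_1]
      ring

theorem quint_eq {K : Type} [Field K] {f : K[X]} (hf : f.Monic) (h5 : f.natDegree = 5) :
    f = X ^ 5 + C (f.coeff 4) * X ^ 4 + C (f.coeff 3) * X ^ 3 + C (f.coeff 2) * X ^ 2 +
      C (f.coeff 1) * X + C (f.coeff 0) := by
  have h := f.as_sum_range_C_mul_X_pow
  have h3 : f.coeff 5 = 1 := by
    rw [← h5]
    exact hf.coeff_natDegree
  rw [h5, Finset.sum_range_succ, Finset.sum_range_succ, Finset.sum_range_succ,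
    Finset.sum_range_succ, Finset.sum_range_succ, Finset.sum_range_one, h3] at h
  calc f = C (f.coeff 0) * X ^ 0 + C (f.coeff 1) * X ^ 1 + C (f.coeff 2) * X ^ 2 +
        C (f.coeff 3) * X ^ 3 + C (f.coeff 4) * X ^ 4 + C 1 * X ^ 5 := h
    _ = _ := by
      rw [C_1]
      ring

theorem coef6 {K : Type} [Field K] (p2 p1 p0 f4 f3 f2 f1 f0 q5 q4 q3 q2 q1 q0 : K)
    (h : C p2 * X ^ 2 + C p1 * X + C p0 - (X ^ 5 + C f4 * X ^ 4 + C f3 * X ^ 3 + C f2 * X ^ 2 +
      C f1 * X + C f0) = C q5 * X ^ 5 + C q4 * X ^ 4 + C q3 * X ^ 3 + C q2 * X ^ 2 + C q1 * X +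
      C q0) : q5 = -1 ∧ q4 = -f4 ∧ q3 = -f3 ∧ q2 = p2 - f2 ∧ q1 = p1 - f1 ∧ q0 = p0 - f0 := by
  have k0 := congrArg (fun P : K[X] => P.coeff 0) h
  have k1 := congrArg (fun P : K[X] => P.coeff 1) h
  have k2 := congrArg (fun P : K[X] => P.coeff 2) h
  have k3 := congrArg (fun P : K[X] => P.coeff 3) h
  have k4 := congrArg (fun P : K[X] => P.coeff 4) h
  have k5 := congrArg (fun P : K[X] => P.coeff 5) h
  simp [coeff_X, coeff_C] at k0 k1 k2 k3 k4 k5
  exact ⟨k5.symm, k4.symm, k3.symm, k2.symm, k1.symm, k0.symm⟩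

/-- the coefficients of the cofactor -/
theorem cof {K : Type} [Field K] {f A B : K[X]} (hf : f.Monic) (h5 : f.natDegree = 5)
    (hM : Mum f A B) (h2 : A.natDegree = 2) :
    ∃ d0 d1 d2 : K, B ^ 2 - f = A * (-X ^ 3 + C d2 * X ^ 2 + C d1 * X + C d0) ∧
      B = C (B.coeff 1) * X + C (B.coeff 0) ∧
      -f.coeff 4 = d2 - A.coeff 1 ∧
      -f.coeff 3 = d1 + A.coeff 1 * d2 - A.coeff 0 ∧
      B.coeff 1 ^ 2 - f.coeff 2 = d0 + A.coeff 1 * d1 + A.coeff 0 * d2 ∧
      2 * B.coeff 1 * B.coeff 0 - f.coeff 1 = A.coeff 1 * d0 + A.coeff 0 * d1 ∧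
      B.coeff 0 ^ 2 - f.coeff 0 = A.coeff 0 * d0 := by
  have hA := quad_eq hM.monic h2
  have hB : B = C (B.coeff 1) * X + C (B.coeff 0) := by
    apply eq_X_add_C_of_degree_le_one
    have h := hM.deg
    have hA2 : A.degree = 2 := by
      rw [degree_eq_natDegree hM.monic.ne_zero, h2]
      rfl
    rw [hA2] at h
    exact Order.le_of_lt_succ h
  obtain ⟨D, hD⟩ := hM.dvd
  have hBn : B.natDegree ≤ 1 := by
    rw [hB]
    exact natDegree_linear_le
  have hl : (B ^ 2 - f).natDegree ≤ 5 := by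
    refine (natDegree_sub_le _ _).trans (max_le ?_ h5.le)
    refine natDegree_pow_le.trans ?_
    omega
  have hDn : D.natDegree ≤ 3 := by
    by_cases h0 : D = 0
    · rw [h0]
      simp
    · rw [hD, hM.monic.natDegree_mul' h0, h2] at hl
      omega
  have hDs : D = C (D.coeff 3) * X ^ 3 + C (D.coeff 2) * X ^ 2 + C (D.coeff 1) * X +
      C (D.coeff 0) := by
    have h := D.as_sum_range_C_mul_X_pow' (n := 4) (by omega)
    rw [Finset.sum_range_succ, Finset.sum_range_succ, Finset.sum_range_succ,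
      Finset.sum_range_one] at h
    calc D = C (D.coeff 0) * X ^ 0 + C (D.coeff 1) * X ^ 1 + C (D.coeff 2) * X ^ 2 +
          C (D.coeff 3) * X ^ 3 := h
      _ = _ := by ring
  -- comparison of the coefficients
  have key : C (B.coeff 1 ^ 2) * X ^ 2 + C (2 * B.coeff 1 * B.coeff 0) * X + C (B.coeff 0 ^ 2) -
      (X ^ 5 + C (f.coeff 4) * X ^ 4 + C (f.coeff 3) * X ^ 3 + C (f.coeff 2) * X ^ 2 +
      C (f.coeff 1) * X + C (f.coeff 0)) =
      C (D.coeff 3) * X ^ 5 + C (D.coeff 2 + A.coeff 1 * D.coeff 3) * X ^ 4 +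
      C (D.coeff 1 + A.coeff 1 * D.coeff 2 + A.coeff 0 * D.coeff 3) * X ^ 3 +
      C (D.coeff 0 + A.coeff 1 * D.coeff 1 + A.coeff 0 * D.coeff 2) * X ^ 2 +
      C (A.coeff 1 * D.coeff 0 + A.coeff 0 * D.coeff 1) * X + C (A.coeff 0 * D.coeff 0) := by
    have e1 : C (B.coeff 1 ^ 2) * X ^ 2 + C (2 * B.coeff 1 * B.coeff 0) * X +
        C (B.coeff 0 ^ 2) = (C (B.coeff 1) * X + C (B.coeff 0)) ^ 2 := by
      simp only [C_mul, C_pow]
      have h22 : (C (2 : K) : K[X]) = 2 := rfl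
      rw [h22]
      ring
    have e2 : C (D.coeff 3) * X ^ 5 + C (D.coeff 2 + A.coeff 1 * D.coeff 3) * X ^ 4 +
        C (D.coeff 1 + A.coeff 1 * D.coeff 2 + A.coeff 0 * D.coeff 3) * X ^ 3 +
        C (D.coeff 0 + A.coeff 1 * D.coeff 1 + A.coeff 0 * D.coeff 2) * X ^ 2 +
        C (A.coeff 1 * D.coeff 0 + A.coeff 0 * D.coeff 1) * X + C (A.coeff 0 * D.coeff 0) =
        (X ^ 2 + C (A.coeff 1) * X + C (A.coeff 0)) * (C (D.coeff 3) * X ^ 3 +
        C (D.coeff 2) * X ^ 2 + C (D.coeff 1) * X + C (D.coeff 0)) := by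
      simp only [C_mul, C_add]
      ring
    rw [e1, e2, ← hB, ← quint_eq hf h5, ← hA, ← hDs]
    exact hD
  obtain ⟨h3, k4, k3, k2, k1, k0⟩ := coef6 _ _ _ _ _ _ _ _ _ _ _ _ _ _ key
  refine ⟨D.coeff 0, D.coeff 1, D.coeff 2, ?_, hB, ?_, ?_, ?_, ?_, ?_⟩
  · rw [hD]
    congr 1
    rw [h3] at hDs
    calc D = _ := hDs
      _ = _ := by
        rw [C_neg, C_1]
        ring
  · rw [h3] at k4
    linear_combination -k4
  · rw [h3] at k3
    linear_combination -k3
  · linear_combination -k2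
  · linear_combination -k1
  · linear_combination -k0

theorem tro : TroStatement := by
  intro K _ f A B a b hf h5 hM h2 ha hb
  obtain ⟨d0, d1, d2, hD, hB, c4, c3, c2, c1, c0⟩ := cof hf h5 hM h2
  have hA := quad_eq hM.monic h2
  have hF := quint_eq hf h5
  have eA : ∀ u, A.eval u = u ^ 2 + A.coeff 1 * u + A.coeff 0 := by
    intro u
    have h := congrArg (fun P : K[X] => P.eval u) hA
    simpa using h
  have eB : ∀ u, B.eval u = B.coeff 1 * u + B.coeff 0 := by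
    intro u
    have h := congrArg (fun P : K[X] => P.eval u) hB
    simpa using h
  have eF : ∀ u, f.eval u = u ^ 5 + f.coeff 4 * u ^ 4 + f.coeff 3 * u ^ 3 + f.coeff 2 * u ^ 2 +
      f.coeff 1 * u + f.coeff 0 := by
    intro u
    have h := congrArg (fun P : K[X] => P.eval u) hF
    simpa using h
  have eD : ∀ u, B.eval u ^ 2 - f.eval u = A.eval u * (-u ^ 3 + d2 * u ^ 2 + d1 * u + d0) := by
    intro u
    have h := congrArg (fun P : K[X] => P.eval u) hD
    simpa using h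
  have fa : f.eval a = 0 := ha
  have fb : f.eval b = 0 := hb
  have Da := eD a
  have Db := eD b
  rw [fa, sub_zero] at Da
  rw [fb, sub_zero] at Db
  rw [eF] at fa fb
  have htau : tau f a b (kum f A B) = (B.coeff 1) ^ 2 - (-A.coeff 1) ^ 3 +
      (-A.coeff 1) * A.coeff 0 - f.coeff 4 * (-A.coeff 1) ^ 2 - f.coeff 3 * (-A.coeff 1) -
      f.coeff 2 - (a + b) * A.coeff 0 + a * b * (-A.coeff 1) + ((a + b) *
      (a ^ 2 + a * b + b ^ 2) + f.coeff 4 * (a + b) ^ 2 + f.coeff 3 * (a + b) + f.coeff 2) := by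
    unfold tau kum GG
    simp
  have key : A.eval a * (-b ^ 3 + d2 * b ^ 2 + d1 * b + d0) +
      A.eval b * (-a ^ 3 + d2 * a ^ 2 + d1 * a + d0) - 2 * B.eval a * B.eval b =
      (a - b) ^ 2 * tau f a b (kum f A B) := by
    rw [htau, eA, eA, eB, eB]
    have g2 : d2 = A.coeff 1 - f.coeff 4 := by linear_combination -c4
    have g1 : d1 = A.coeff 0 - f.coeff 3 - A.coeff 1 * d2 := by linear_combination -c3
    have g0 : d0 = B.coeff 1 ^ 2 - f.coeff 2 - A.coeff 1 * d1 - A.coeff 0 * d2 := by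
      linear_combination -c2
    subst g2
    subst g1
    subst g0
    linear_combination (-2) * c0 - (a + b) * c1 - fa - fb
  constructor
  · linear_combination (A.eval a) ^ 2 * Db + (A.eval b) ^ 2 * Da + A.eval a * A.eval b * key
  · rw [eA a]
    unfold kum
    simp
    ring

end Pool.Agent.KDT.H10
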